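import Pool.Agent.FWP39.Golden

/-!
# The finite word property forces `β` to be a Pisot or a Salem number

For `1 < β < 2`: if the normalisation `P_β` of 0-1 sequences is computed block by block
(`BlockProperty β`: the finite word property without its conditions of disjointness and of finite
mean length, and with arbitrary fixed initial words `u`, `v`), then `β` is an algebraic integer all
of whose other conjugates have modulus at most `1`.

The golden mean has `BlockProperty`, with `u = 0` and `v` empty.
-/

open Polynomial

theorem Pool.Agent.Results.MP_dbb102_an.PisotOrSalem.golden :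
    Pool.Agent.FWP39.BlockProperty Real.goldenRatio :=
  Pool.Agent.FWP39.golden_block Real.one_lt_goldenRatio Real.goldenRatio_sq

theorem Pool.Agent.Results.MP_dbb102_an.PisotOrSalem.result (β : ℝ) (h1 : 1 < β) (h2 : β < 2)
    (h : Pool.Agent.FWP39.BlockProperty β) :
    IsIntegral ℤ β ∧ ∀ z : ℂ, aeval z (minpoly ℚ β) = 0 → z ≠ β → ‖z‖ ≤ 1 :=
  Pool.Agent.FWP39.pisot_or_salem h1 h2 h
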